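import Mathlib

set_option autoImplicit false

/-! Percolation with constant freezing: the final configuration on the complete graph with four
vertices does not satisfy the FKG inequality at rate `α = 1/40`. -/

namespace Pool.Agent.Results.MP_b6680e_pr.FKGFails

open Finset Filter Topology

section defs

variable {V E : Type} [Fintype V] [DecidableEq V] [Fintype E] [DecidableEq E]

/-- A state: the set of frozen vertices and the set of open edges. -/
abbrev State (V E : Type) : Type := Finset V × Finset E

/-- `a` and `b` are the two endpoints of an open edge -/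
def OpenAdj (ends : E → V × V) (O : Finset E) (a b : V) : Prop :=
  ∃ e ∈ O, ends e = (a, b) ∨ ends e = (b, a)

open Classical in
/-- the cluster of `v`: all vertices joined to `v` by a path of open edges -/
noncomputable def cluster (ends : E → V × V) (O : Finset E) (v : V) : Finset V :=
  Finset.univ.filter fun w => Relation.ReflTransGen (OpenAdj ends O) v w

/-- the clusters that are not frozen -/
noncomputable def warmClusters (ends : E → V × V) (s : State V E) : Finset (Finset V) :=
  (Finset.univ.image (cluster ends s.2)).filter fun C => Disjoint C s.1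

/-- the closed edges whose two endpoints are warm -/
def openable (ends : E → V × V) (s : State V E) : Finset E :=
  Finset.univ.filter fun e => e ∉ s.2 ∧ (ends e).1 ∉ s.1 ∧ (ends e).2 ∉ s.1

/-- total jump rate out of a state: each openable edge opens at rate `1`, each warm cluster freezes
at rate `α` -/
noncomputable def totalRate (ends : E → V × V) (α : ℝ) (s : State V E) : ℝ :=
  (openable ends s).card + α * (warmClusters ends s).card

/-- `jump ends α f s` is the expectation of `f` after one jump of the chain from the state `s` (the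
chain stays where it is if no transition is possible) -/
noncomputable def jump (ends : E → V × V) (α : ℝ) (f : State V E → ℝ) (s : State V E) : ℝ :=
  if totalRate ends α s = 0 then f s else
    ((∑ e ∈ openable ends s, f (s.1, insert e s.2)) +
      α * ∑ C ∈ warmClusters ends s, f (s.1 ∪ C, s.2)) / totalRate ends α s

open Classical in
/-- `p` is the probability that the final set of open edges lies in `A`: it is the limit, as
`n → ∞`, of the probability that the set of open edges lies in `A` after `n` jumps, started with all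
vertices warm and all edges closed -/
def IsFinalProb (ends : E → V × V) (α : ℝ) (A : Set (Finset E)) (p : ℝ) : Prop :=
  Tendsto (fun n : ℕ => (jump ends α)^[n] (fun s => if s.2 ∈ A then 1 else 0) (∅, ∅)) atTop (𝓝 p)

end defs

/-- the six edges of the complete graph on `{0, 1, 2, 3}` -/
def ends4 : Fin 6 → Fin 4 × Fin 4 := ![(0, 1), (2, 3), (0, 2), (0, 3), (1, 2), (1, 3)]

/-! ### bit codes -/

def decF (f : ℕ) : Finset (Fin 4) := Finset.univ.filter fun v => f.testBit v
def decO (o : ℕ) : Finset (Fin 6) := Finset.univ.filter fun e => o.testBit e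

lemma mem_decF (f : ℕ) (v : Fin 4) : v ∈ decF f ↔ f.testBit v = true := by
  unfold decF; simp

lemma mem_decO (o : ℕ) (e : Fin 6) : e ∈ decO o ↔ o.testBit e = true := by
  unfold decO; simp

lemma decF_or (f g : ℕ) : decF f ∪ decF g = decF (f ||| g) := by
  ext v
  rw [Finset.mem_union, mem_decF, mem_decF, mem_decF, Nat.testBit_or, Bool.or_eq_true]

lemma decO_insert (o : ℕ) (e : Fin 6) : insert e (decO o) = decO (o ||| 2 ^ (e : ℕ)) := by
  ext d
  rw [Finset.mem_insert, mem_decO, mem_decO, Nat.testBit_or, Bool.or_eq_true, Nat.testBit_two_pow]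
  constructor
  · rintro (h | h)
    · right; rw [h]; simp
    · left; exact h
  · rintro (h | h)
    · right; exact h
    · left
      have : (e : ℕ) = d := by simpa using h
      exact Fin.ext this.symm

/-- one round of closure of the vertex set `m` under the open edges `o` -/
def stpN (o m : ℕ) : ℕ :=
  (List.finRange 6).foldl (fun (m : ℕ) (e : Fin 6) =>
    if o.testBit e && (m.testBit (ends4 e).1 || m.testBit (ends4 e).2) then
      m ||| (2 ^ ((ends4 e).1 : ℕ) ||| 2 ^ ((ends4 e).2 : ℕ)) else m) m

def cluN (o : ℕ) (v : Fin 4) : ℕ := stpN o (stpN o (stpN o (2 ^ (v : ℕ))))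

lemma foldl_sound (o : ℕ) (v : Fin 4) (l : List (Fin 6)) : ∀ m : ℕ,
    (∀ w : Fin 4, m.testBit w = true → Relation.ReflTransGen (OpenAdj ends4 (decO o)) v w) →
    ∀ w : Fin 4, (l.foldl (fun (m : ℕ) (e : Fin 6) =>
      if o.testBit e && (m.testBit (ends4 e).1 || m.testBit (ends4 e).2) then
      m ||| (2 ^ ((ends4 e).1 : ℕ) ||| 2 ^ ((ends4 e).2 : ℕ)) else m) m).testBit w = true →
      Relation.ReflTransGen (OpenAdj ends4 (decO o)) v w := by
  induction l with
  | nil => intro m h w hw; exact h w hw
  | cons e l ih =>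
    intro m h w hw
    rw [List.foldl_cons] at hw
    refine ih _ ?_ w hw
    intro w' hw'
    split_ifs at hw' with hc
    · rw [Bool.and_eq_true, Bool.or_eq_true] at hc
      rw [Nat.testBit_or, Nat.testBit_or, Bool.or_eq_true, Bool.or_eq_true, Nat.testBit_two_pow,
        Nat.testBit_two_pow] at hw'
      have he : e ∈ decO o := (mem_decO o e).2 hc.1
      have hab : OpenAdj ends4 (decO o) (ends4 e).1 (ends4 e).2 := ⟨e, he, Or.inl rfl⟩
      have hba : OpenAdj ends4 (decO o) (ends4 e).2 (ends4 e).1 := ⟨e, he, Or.inr rfl⟩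
      have h1 : Relation.ReflTransGen (OpenAdj ends4 (decO o)) v (ends4 e).1 := by
        rcases hc.2 with h2 | h2
        · exact h _ h2
        · exact (h _ h2).tail hba
      have h2 : Relation.ReflTransGen (OpenAdj ends4 (decO o)) v (ends4 e).2 := h1.tail hab
      rcases hw' with hw' | hw' | hw'
      · exact h _ hw'
      · have : (ends4 e).1 = w' := Fin.ext (by simpa using hw')
        rw [← this]; exact h1
      · have : (ends4 e).2 = w' := Fin.ext (by simpa using hw')
        rw [← this]; exact h2
    · exact h _ hw'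

lemma cluN_facts : ∀ o < 64, ∀ v : Fin 4, (cluN o v).testBit v = true ∧
    (∀ e : Fin 6, o.testBit e = true →
      ((cluN o v).testBit (ends4 e).1 = (cluN o v).testBit (ends4 e).2)) ∧
    (∃ w : Fin 4, cluN o w = cluN o v ∧ cluN o w % 2 ^ (w : ℕ) = 0) ∧
    cluN o v < 16 := by
  decide +kernel

lemma cluN_inj : ∀ o < 64, ∀ v w : Fin 4, cluN o v % 2 ^ (v : ℕ) = 0 → cluN o w % 2 ^ (w : ℕ) = 0 →
    (cluN o w).testBit v = true → (cluN o v).testBit w = true → v = w := by
  decide +kernel

lemma cluster_eq (o : ℕ) (ho : o < 64) (v : Fin 4) :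
    cluster ends4 (decO o) v = decF (cluN o v) := by
  classical
  obtain ⟨hself, hcl, -, -⟩ := cluN_facts o ho v
  ext w
  unfold cluster
  rw [Finset.mem_filter, mem_decF]
  constructor
  · rintro ⟨-, h⟩
    induction h with
    | refl => exact hself
    | tail _ hab ih =>
      obtain ⟨e, he, h1 | h1⟩ := hab
      · have := hcl e ((mem_decO o e).1 he)
        rw [h1] at this
        simp only at this
        rw [← this]; exact ih
      · have := hcl e ((mem_decO o e).1 he)
        rw [h1] at this
        simp only at this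
        rw [this]; exact ih
  · intro h
    refine ⟨Finset.mem_univ _, ?_⟩
    refine foldl_sound o v _ _ (foldl_sound o v _ _ (foldl_sound o v _ _ ?_)) w h
    intro w hw
    rw [Nat.testBit_two_pow] at hw
    have : v = w := Fin.ext (by simpa using hw)
    rw [this]

/-- `v` is the smallest vertex of a warm cluster -/
def rep (o f : ℕ) (v : Fin 4) : Bool := !(f.testBit v) && (cluN o v % 2 ^ (v : ℕ) == 0)

/-- `e` can open -/
def opn (o f : ℕ) (e : Fin 6) : Bool :=
  !(o.testBit e) && !(f.testBit (ends4 e).1) && !(f.testBit (ends4 e).2)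

/-- the clusters of warm vertices are warm -/
def goodN (o f : ℕ) : Bool := decide (∀ v : Fin 4, f.testBit v = false → cluN o v &&& f = 0)

lemma openable_eq (o f : ℕ) :
    openable ends4 (decF f, decO o) = Finset.univ.filter fun e => opn o f e = true := by
  ext e
  unfold openable opn
  simp only [Finset.mem_filter, Finset.mem_univ, true_and, mem_decF, mem_decO, Bool.and_eq_true,
    Bool.not_eq_true', Bool.not_eq_true]
  tauto

lemma rep_injOn (o f : ℕ) (ho : o < 64) :
    Set.InjOn (fun v => decF (cluN o v)) (Finset.univ.filter fun v => rep o f v = true : Finset (Fin 4)) := by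
  intro v hv w hw h
  simp only [Finset.coe_filter, Finset.mem_univ, true_and, Set.mem_ofPred_eq, rep, Bool.and_eq_true,
    beq_iff_eq] at hv hw
  have h' : decF (cluN o v) = decF (cluN o w) := h
  refine cluN_inj o ho v w hv.2 hw.2 ?_ ?_
  · rw [← mem_decF, ← h', mem_decF]; exact (cluN_facts o ho v).1
  · rw [← mem_decF, h', mem_decF]; exact (cluN_facts o ho w).1

lemma warm_eq (o f : ℕ) (ho : o < 64) (hg : goodN o f = true) :
    warmClusters ends4 (decF f, decO o) =
      (Finset.univ.filter fun v => rep o f v = true).image (fun v => decF (cluN o v)) := by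
  unfold goodN at hg
  rw [decide_eq_true_eq] at hg
  have e1 : cluster ends4 (decO o) = fun v => decF (cluN o v) := by
    funext v; exact cluster_eq o ho v
  unfold warmClusters
  simp only [e1]
  ext C
  simp only [Finset.mem_filter, Finset.mem_image, Finset.mem_univ, true_and]
  constructor
  · rintro ⟨⟨v, rfl⟩, hd⟩
    obtain ⟨-, -, ⟨w, hw1, hw2⟩, -⟩ := cluN_facts o ho v
    refine ⟨w, ?_, by rw [hw1]⟩
    unfold rep
    rw [Bool.and_eq_true, beq_iff_eq]
    refine ⟨?_, hw2⟩
    rw [Bool.not_eq_true', ← Bool.not_eq_true]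
    intro hf
    have h1 : w ∈ decF (cluN o v) := by
      rw [mem_decF, ← hw1]
      exact (cluN_facts o ho w).1
    exact Finset.disjoint_left.1 hd h1 ((mem_decF f w).2 hf)
  · rintro ⟨v, hv, rfl⟩
    refine ⟨⟨v, rfl⟩, ?_⟩
    unfold rep at hv
    rw [Bool.and_eq_true, Bool.not_eq_true'] at hv
    have h0 := hg v hv.1
    rw [Finset.disjoint_left]
    intro w hw hw'
    rw [mem_decF] at hw hw'
    have h1 : (cluN o v &&& f).testBit w = true := by rw [Nat.testBit_and, hw, hw']; rfl
    rw [h0, Nat.zero_testBit] at h1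
    exact absurd h1 (by decide)

/-! ### the tables -/

def tabA : List (List ℕ) := [[54410029503, 225374539563, 225374539563, 266641771563, 225374539563, 5599477202823, 5599477202823, 5599477202823, 225374539563, 5599477202823, 5599477202823, 5599477202823, 266641771563, 5599477202823, 5599477202823, 5599477202823],
  [],
  [],
  [],
  [77340931503, 0, 203193402363, 0, 0, 5599477202823, 0, 5599477202823, 203193402363, 0, 5599477202823, 0, 0, 5599477202823, 0, 5599477202823],
  [],
  [],
  [],
  [77340931503, 0, 203193402363, 0, 203193402363, 0, 5599477202823, 0, 0, 5599477202823, 0, 5599477202823, 0, 5599477202823, 0, 5599477202823],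
  [],
  [],
  [],
  [69545664643, 0, 136572614703, 0, 0, 0, 0, 0, 0, 0, 0, 0, 0, 5599477202823, 0, 5599477202823],
  [],
  [],
  [],
  [77340931503, 203193402363, 0, 0, 0, 0, 5599477202823, 5599477202823, 203193402363, 5599477202823, 0, 0, 0, 0, 5599477202823, 5599477202823],
  [],
  [],
  [],
  [69545664643, 0, 0, 0, 0, 0, 0, 5599477202823, 136572614703, 0, 0, 0, 0, 0, 0, 5599477202823],
  [],
  [],
  [],
  [103267297903, 0, 0, 0, 0, 0, 5599477202823, 0, 0, 5599477202823, 0, 0, 0, 0, 0, 5599477202823],
  [],
  [],
  [],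
  [69129348183, 0, 0, 0, 0, 0, 0, 0, 0, 0, 0, 0, 0, 0, 0, 5599477202823],
  [],
  [],
  [],
  [77340931503, 203193402363, 0, 0, 203193402363, 5599477202823, 0, 0, 0, 0, 5599477202823, 5599477202823, 0, 0, 5599477202823, 5599477202823],
  [],
  [],
  [],
  [103267297903, 0, 0, 0, 0, 5599477202823, 0, 0, 0, 0, 5599477202823, 0, 0, 0, 0, 5599477202823],
  [],
  [],
  [],
  [69545664643, 0, 0, 0, 136572614703, 0, 0, 0, 0, 0, 0, 5599477202823, 0, 0, 0, 5599477202823],
  [],
  [],
  [],
  [69129348183, 0, 0, 0, 0, 0, 0, 0, 0, 0, 0, 0, 0, 0, 0, 5599477202823],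
  [],
  [],
  [],
  [69545664643, 136572614703, 0, 0, 0, 0, 0, 0, 0, 0, 0, 0, 0, 0, 5599477202823, 5599477202823],
  [],
  [],
  [],
  [69129348183, 0, 0, 0, 0, 0, 0, 0, 0, 0, 0, 0, 0, 0, 0, 5599477202823],
  [],
  [],
  [],
  [69129348183, 0, 0, 0, 0, 0, 0, 0, 0, 0, 0, 0, 0, 0, 0, 5599477202823],
  [],
  [],
  [],
  [69129348183, 0, 0, 0, 0, 0, 0, 0, 0, 0, 0, 0, 0, 0, 0, 5599477202823]]

def denA : ℕ := 5599477202823

def tabB : List (List ℕ) := [[4666223, 28387143, 28387143, 1686081663, 28387143, 80289603, 80289603, 1686081663, 28387143, 80289603, 80289603, 1686081663, 1686081663, 1686081663, 1686081663, 1686081663],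
  [12812623, 0, 0, 1686081663, 41123943, 0, 0, 1686081663, 41123943, 0, 0, 1686081663, 1686081663, 0, 0, 1686081663],
  [12812623, 41123943, 41123943, 1686081663, 0, 0, 0, 0, 0, 0, 0, 0, 1686081663, 1686081663, 1686081663, 1686081663],
  [20815823, 0, 0, 1686081663, 0, 0, 0, 0, 0, 0, 0, 0, 1686081663, 0, 0, 1686081663]]

def denB : ℕ := 1686081663

def tabC : List (List ℕ) := [[1, 61, 61, 2501, 61, 2501, 2501, 52521, 61, 2501, 2501, 52521, 2501, 52521, 52521, 52521]]

def denC : ℕ := 52521


def val (tab : List (List ℕ)) (o f : ℕ) : ℕ := (tab.getD o []).getD f 0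

/-- number of ones among the lowest bits -/
def pop (k x : ℕ) : ℕ := ((List.range k).map fun i => if x.testBit i then 1 else 0).sum

lemma good_open1 : ∀ o < 64, ∀ e : Fin 6, o ||| 2 ^ (e : ℕ) < 64 := by
  decide +kernel

lemma good_open2 : ∀ o < 64, ∀ e : Fin 6, o.testBit e = false →
    pop 6 (o ||| 2 ^ (e : ℕ)) = pop 6 o + 1 := by
  decide +kernel

lemma good_open3 : ∀ o < 64, ∀ f < 16, goodN o f = true → ∀ e : Fin 6, opn o f e = true →
    goodN (o ||| 2 ^ (e : ℕ)) f = true := by
  decide +kernel

lemma good_open (o : ℕ) (ho : o < 64) (f : ℕ) (hf : f < 16) (hg : goodN o f = true) (e : Fin 6)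
    (he : opn o f e = true) :
    goodN (o ||| 2 ^ (e : ℕ)) f = true ∧ o ||| 2 ^ (e : ℕ) < 64 ∧
      pop 6 (o ||| 2 ^ (e : ℕ)) = pop 6 o + 1 := by
  refine ⟨good_open3 o ho f hf hg e he, good_open1 o ho e, good_open2 o ho e ?_⟩
  unfold opn at he
  simp only [Bool.and_eq_true, Bool.not_eq_true'] at he
  exact he.1.1

lemma good_freeze : ∀ o < 64, ∀ f < 16, goodN o f = true → ∀ v : Fin 4, rep o f v = true →
    goodN o (f ||| cluN o v) = true ∧ f ||| cluN o v < 16 ∧
      pop 4 f + 1 ≤ pop 4 (f ||| cluN o v) := by
  decide +kernel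

lemma pop_le : ∀ o < 64, pop 6 o ≤ 6 := by decide +kernel
lemma pop_ge : ∀ f < 16, 4 ≤ pop 4 f → f = 15 := by decide +kernel
lemma rep_exists : ∀ o < 64, ∀ f < 15, goodN o f = true → ∃ v, rep o f v = true := by
  decide +kernel

/-- harmonicity of a table, multiplied out for `α = 1/40` -/
def Harm (tab : List (List ℕ)) : Prop :=
  ∀ o < 64, ∀ f < 15, goodN o f = true →
    (40 * (∑ e, if opn o f e = true then 1 else 0) + (∑ v, if rep o f v = true then 1 else 0)) *
        val tab o f =
      40 * (∑ e : Fin 6, if opn o f e = true then val tab (o ||| 2 ^ (e : ℕ)) f else 0) +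
        ∑ v, if rep o f v = true then val tab o (f ||| cluN o v) else 0

instance (tab : List (List ℕ)) : Decidable (Harm tab) := by unfold Harm; infer_instance

lemma harmA : Harm tabA := by decide +kernel
lemma harmB : Harm tabB := by decide +kernel
lemma harmC : Harm tabC := by decide +kernel

/-- the edges `01` and `23` are closed -/
def pA (o : ℕ) : Bool := !(o.testBit 0) && !(o.testBit 1)
/-- the four other edges are closed -/
def pB (o : ℕ) : Bool :=
  !(o.testBit 2) && !(o.testBit 3) && !(o.testBit 4) && !(o.testBit 5)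

lemma finA : ∀ o < 64, val tabA o 15 = if pA o then denA else 0 := by decide +kernel
lemma finB : ∀ o < 64, val tabB o 15 = if pB o then denB else 0 := by decide +kernel
lemma finC : ∀ o < 64, val tabC o 15 = if pA o && pB o then denC else 0 := by decide +kernel

lemma decF_15 : decF 15 = Finset.univ := by decide +kernel

lemma iter_absorbed (α : ℝ) (f : State (Fin 4) (Fin 6) → ℝ) (O : Finset (Fin 6)) (n : ℕ) :
    (jump ends4 α)^[n] f (Finset.univ, O) = f (Finset.univ, O) := by
  classical
  have h0 : totalRate ends4 α (Finset.univ, O) = 0 := by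
    unfold totalRate openable warmClusters
    have h1 : (Finset.univ.filter fun e => e ∉ O ∧ (ends4 e).1 ∉ (Finset.univ : Finset (Fin 4)) ∧
        (ends4 e).2 ∉ (Finset.univ : Finset (Fin 4))) = ∅ := by ext e; simp
    have h2 : ((Finset.univ.image (cluster ends4 O)).filter
        fun C => Disjoint C (Finset.univ : Finset (Fin 4))) = ∅ := by
      ext C
      simp only [Finset.mem_filter, Finset.mem_image, Finset.mem_univ, true_and,
        Finset.notMem_empty, iff_false, not_and]
      rintro ⟨v, rfl⟩ hd
      have h3 : v ∈ cluster ends4 O v := by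
        unfold cluster
        rw [Finset.mem_filter]
        exact ⟨Finset.mem_univ _, Relation.ReflTransGen.refl⟩
      exact Finset.disjoint_left.1 hd h3 (Finset.mem_univ _)
    simp only [h1, h2]
    simp
  induction n with
  | zero => rfl
  | succ n ih =>
    rw [Function.iterate_succ_apply', jump, if_pos h0, ih]

/-- evaluation of the iterates -/
lemma iter_eq (tab : List (List ℕ)) (hh : Harm tab) (D : ℕ) (hD : 0 < D)
    (g : State (Fin 4) (Fin 6) → ℝ)
    (hf : ∀ o < 64, g (Finset.univ, decO o) = (val tab o 15 : ℝ) / D) :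
    ∀ (n : ℕ), ∀ o < 64, ∀ f < 16, goodN o f = true → 10 ≤ n + pop 4 f + pop 6 o →
      (jump ends4 (1 / 40))^[n] g (decF f, decO o) = (val tab o f : ℝ) / D := by
  intro n
  induction n with
  | zero =>
    intro o ho f hf' _ hc
    have h1 := pop_le o ho
    have h4 : f = 15 := pop_ge f hf' (by omega)
    rw [h4, decF_15]
    exact hf o ho
  | succ n ih =>
    intro o ho f hf' hg hc
    by_cases hF : f = 15
    · rw [hF, decF_15, iter_absorbed]; exact hf o ho
    · have hf15 : f < 15 := by omega
      set R : Finset (Fin 4) := Finset.univ.filter fun v => rep o f v = true with hR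
      have hcw : (warmClusters ends4 (decF f, decO o)).card = R.card := by
        rw [warm_eq o f ho hg, Finset.card_image_of_injOn (rep_injOn o f ho)]
      have hw : 0 < R.card := by
        obtain ⟨v, hv⟩ := rep_exists o ho f hf15 hg
        exact Finset.card_pos.2 ⟨v, by rw [hR, Finset.mem_filter]; exact ⟨Finset.mem_univ _, hv⟩⟩
      have hwR : (0 : ℝ) < R.card := by exact_mod_cast hw
      have htot : 0 < totalRate ends4 (1 / 40) (decF f, decO o) := by
        unfold totalRate
        rw [hcw]
        positivity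
      have hD' : (0 : ℝ) < D := by exact_mod_cast hD
      rw [Function.iterate_succ_apply', jump, if_neg htot.ne']
      have e1 : ∑ e ∈ openable ends4 (decF f, decO o),
          (jump ends4 (1 / 40))^[n] g (decF f, insert e (decO o)) =
          (∑ e : Fin 6, if opn o f e = true then (val tab (o ||| 2 ^ (e : ℕ)) f : ℝ) else 0) / D := by
        rw [openable_eq, ← Finset.sum_filter, Finset.sum_div]
        refine Finset.sum_congr rfl fun e he => ?_
        rw [Finset.mem_filter] at he
        obtain ⟨h1, h2, h3⟩ := good_open o ho f hf' hg e he.2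
        rw [decO_insert]
        exact ih _ h2 f hf' h1 (by omega)
      have e2 : ∑ C ∈ warmClusters ends4 (decF f, decO o),
          (jump ends4 (1 / 40))^[n] g (decF f ∪ C, decO o) =
          (∑ v, if rep o f v = true then (val tab o (f ||| cluN o v) : ℝ) else 0) / D := by
        rw [warm_eq o f ho hg, Finset.sum_image (rep_injOn o f ho), ← Finset.sum_filter,
          Finset.sum_div]
        refine Finset.sum_congr rfl fun v hv => ?_
        rw [Finset.mem_filter] at hv
        obtain ⟨h1, h2, h3⟩ := good_freeze o ho f hf' hg v hv.2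
        rw [decF_or]
        exact ih o ho _ h2 h1 (by omega)
      simp only
      rw [e1, e2, div_eq_iff htot.ne']
      have h5 := hh o ho f hf15 hg
      have h6 : (40 * (∑ e, if opn o f e = true then (1 : ℝ) else 0) +
          (∑ v, if rep o f v = true then (1 : ℝ) else 0)) * (val tab o f : ℝ) =
          40 * (∑ e : Fin 6, if opn o f e = true then (val tab (o ||| 2 ^ (e : ℕ)) f : ℝ) else 0) +
            ∑ v, if rep o f v = true then (val tab o (f ||| cluN o v) : ℝ) else 0 := by
        exact_mod_cast h5
      have h7 : ((openable ends4 (decF f, decO o)).card : ℝ) =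
          ∑ e, if opn o f e = true then (1 : ℝ) else 0 := by
        rw [openable_eq, Finset.sum_boole]
      have h8 : ((warmClusters ends4 (decF f, decO o)).card : ℝ) =
          ∑ v, if rep o f v = true then (1 : ℝ) else 0 := by
        rw [hcw, Finset.sum_boole]
      unfold totalRate
      rw [h7, h8]
      generalize (∑ e, if opn o f e = true then (1 : ℝ) else 0) = x1 at *
      generalize (∑ v, if rep o f v = true then (1 : ℝ) else 0) = x2 at *
      generalize (∑ e : Fin 6, if opn o f e = true then (val tab (o ||| 2 ^ (e : ℕ)) f : ℝ) else 0) =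
        x3 at *
      generalize (∑ v, if rep o f v = true then (val tab o (f ||| cluN o v) : ℝ) else 0) = x4 at *
      field_simp
      linarith

lemma decF_0 : decF 0 = ∅ := by decide +kernel
lemma decO_0 : decO 0 = ∅ := by decide +kernel
lemma init_good : goodN 0 0 = true := by decide +kernel

lemma iter_init (tab : List (List ℕ)) (hh : Harm tab) (D : ℕ) (hD : 0 < D)
    (g : State (Fin 4) (Fin 6) → ℝ)
    (hf : ∀ o < 64, g (Finset.univ, decO o) = (val tab o 15 : ℝ) / D) (n : ℕ) (hn : 10 ≤ n) :
    (jump ends4 (1 / 40))^[n] g (∅, ∅) = (val tab 0 0 : ℝ) / D := by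
  have := iter_eq tab hh D hD g hf n 0 (by norm_num) 0 (by norm_num) init_good (by omega)
  rwa [decF_0, decO_0] at this

lemma jump_add (α : ℝ) (f g : State (Fin 4) (Fin 6) → ℝ) :
    jump ends4 α (f + g) = jump ends4 α f + jump ends4 α g := by
  funext s
  simp only [Pi.add_apply]
  unfold jump
  by_cases h : totalRate ends4 α s = 0
  · simp only [if_pos h]; rfl
  · simp only [if_neg h, Pi.add_apply, Finset.sum_add_distrib]
    ring

lemma jump_smul (α c : ℝ) (f : State (Fin 4) (Fin 6) → ℝ) :
    jump ends4 α (c • f) = c • jump ends4 α f := by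
  funext s
  simp only [Pi.smul_apply, smul_eq_mul]
  unfold jump
  by_cases h : totalRate ends4 α s = 0
  · simp only [if_pos h]; rfl
  · simp only [if_neg h, Pi.smul_apply, smul_eq_mul, ← Finset.mul_sum]
    ring

lemma jump_one (α : ℝ) : jump ends4 α (1 : State (Fin 4) (Fin 6) → ℝ) = 1 := by
  funext s
  simp only [Pi.one_apply]
  unfold jump
  by_cases h : totalRate ends4 α s = 0
  · simp only [if_pos h]; rfl
  · simp only [if_neg h, Pi.one_apply, Finset.sum_const, nsmul_eq_mul, mul_one]
    exact div_self h

lemma iter_one_sub (α : ℝ) (f : State (Fin 4) (Fin 6) → ℝ) (n : ℕ) :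
    (jump ends4 α)^[n] (1 + (-1 : ℝ) • f) = 1 + (-1 : ℝ) • (jump ends4 α)^[n] f := by
  induction n with
  | zero => rfl
  | succ n ih =>
    rw [Function.iterate_succ_apply', ih, jump_add, jump_one, jump_smul,
      Function.iterate_succ_apply']

lemma iter_add (α : ℝ) (f g : State (Fin 4) (Fin 6) → ℝ) (n : ℕ) :
    (jump ends4 α)^[n] (f + g) = (jump ends4 α)^[n] f + (jump ends4 α)^[n] g := by
  induction n with
  | zero => rfl
  | succ n ih =>
    rw [Function.iterate_succ_apply', ih, jump_add, Function.iterate_succ_apply',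
      Function.iterate_succ_apply']

lemma iter_smul (α c : ℝ) (f : State (Fin 4) (Fin 6) → ℝ) (n : ℕ) :
    (jump ends4 α)^[n] (c • f) = c • (jump ends4 α)^[n] f := by
  induction n with
  | zero => rfl
  | succ n ih =>
    rw [Function.iterate_succ_apply', ih, jump_smul, Function.iterate_succ_apply']

/-- `01` or `23` is open -/
def evA : Set (Finset (Fin 6)) := {O | 0 ∈ O ∨ 1 ∈ O}
/-- one of `02`, `03`, `12`, `13` is open -/
def evB : Set (Finset (Fin 6)) := {O | 2 ∈ O ∨ 3 ∈ O ∨ 4 ∈ O ∨ 5 ∈ O}

lemma isFinal_of (A : Set (Finset (Fin 6))) (p : ℝ) (g : State (Fin 4) (Fin 6) → ℝ)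
    (h1 : ∀ s : State (Fin 4) (Fin 6), s.2 ∈ A → g s = 1)
    (h0 : ∀ s : State (Fin 4) (Fin 6), s.2 ∉ A → g s = 0)
    (h : ∀ n : ℕ, 10 ≤ n → (jump ends4 (1 / 40))^[n] g (∅, ∅) = p) :
    IsFinalProb ends4 (1 / 40) A p := by
  classical
  unfold IsFinalProb
  refine tendsto_const_nhds.congr' ?_
  filter_upwards [eventually_ge_atTop 10] with n hn
  rw [← h n hn]
  refine congrFun (congrArg _ ?_) _
  funext s
  by_cases hs : s.2 ∈ A
  · rw [if_pos hs, h1 s hs]
  · rw [if_neg hs, h0 s hs]

/-- the edges `01` and `23` are closed -/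
def qA (O : Finset (Fin 6)) : Bool := decide (0 ∉ O ∧ 1 ∉ O)
/-- the four other edges are closed -/
def qB (O : Finset (Fin 6)) : Bool := decide (2 ∉ O ∧ 3 ∉ O ∧ 4 ∉ O ∧ 5 ∉ O)

lemma qA_eq : ∀ o < 64, qA (decO o) = pA o := by decide +kernel
lemma qB_eq : ∀ o < 64, qB (decO o) = pB o := by decide +kernel

lemma final_compl (A : Set (Finset (Fin 6))) (q : Finset (Fin 6) → Bool) (p : ℕ → Bool)
    (hqp : ∀ o < 64, q (decO o) = p o)
    (hA : ∀ O, O ∈ A ↔ q O = false) (tab : List (List ℕ)) (hh : Harm tab) (D : ℕ) (hD : 0 < D)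
    (hf : ∀ o < 64, val tab o 15 = if p o then D else 0) :
    IsFinalProb ends4 (1 / 40) A (1 - (val tab 0 0 : ℝ) / D) := by
  have hD' : (D : ℝ) ≠ 0 := by exact_mod_cast hD.ne'
  refine isFinal_of A _ (1 + (-1 : ℝ) • (fun s => if q s.2 then (1 : ℝ) else 0)) ?_ ?_ ?_
  · intro s hs
    simp only [Pi.add_apply, Pi.one_apply, Pi.smul_apply, smul_eq_mul]
    rw [(hA _).1 hs]; norm_num
  · intro s hs
    simp only [Pi.add_apply, Pi.one_apply, Pi.smul_apply, smul_eq_mul]
    have : q s.2 = true := by
      by_contra h
      exact hs ((hA _).2 (by simpa using h))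
    rw [this]; norm_num
  · intro n hn
    have h1 := iter_init tab hh D hD (fun s => if q s.2 then (1 : ℝ) else 0) (by
      intro o ho
      rw [hf o ho]
      simp only [hqp o ho]
      split_ifs
      · rw [div_self hD']
      · simp) n hn
    rw [iter_one_sub]
    simp only [Pi.add_apply, Pi.one_apply, Pi.smul_apply, smul_eq_mul, h1]
    ring

lemma final_inter :
    IsFinalProb ends4 (1 / 40) (evA ∩ evB) (1 - (val tabA 0 0 : ℝ) / denA -
      (val tabB 0 0 : ℝ) / denB + (val tabC 0 0 : ℝ) / denC) := by
  have hA' : (denA : ℝ) ≠ 0 := by unfold denA; norm_num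
  have hB' : (denB : ℝ) ≠ 0 := by unfold denB; norm_num
  have hC' : (denC : ℝ) ≠ 0 := by unfold denC; norm_num
  set fA : State (Fin 4) (Fin 6) → ℝ := fun s => if qA s.2 then 1 else 0 with hfA
  set fB : State (Fin 4) (Fin 6) → ℝ := fun s => if qB s.2 then 1 else 0 with hfB
  set fC : State (Fin 4) (Fin 6) → ℝ := fun s => if qA s.2 && qB s.2 then 1 else 0 with hfC
  refine isFinal_of (evA ∩ evB) _ (1 + (-1 : ℝ) • (fA + (fB + (-1 : ℝ) • fC))) ?_ ?_ ?_
  · rintro s ⟨hs1, hs2⟩
    have h1 : qA s.2 = false := by
      unfold qA; rw [decide_eq_false_iff_not]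
      rintro ⟨a, b⟩
      rcases hs1 with h | h
      · exact a h
      · exact b h
    have h2 : qB s.2 = false := by
      unfold qB; rw [decide_eq_false_iff_not]
      rintro ⟨a, b, c, d⟩
      rcases hs2 with h | h | h | h
      · exact a h
      · exact b h
      · exact c h
      · exact d h
    simp only [hfA, hfB, hfC, Pi.add_apply, Pi.one_apply, Pi.smul_apply, smul_eq_mul, h1, h2]
    norm_num
  · intro s hs
    have h0 : qA s.2 = true ∨ qB s.2 = true := by
      by_contra h
      rw [not_or] at h
      refine hs ⟨?_, ?_⟩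
      · have := h.1
        unfold qA at this
        simp only [decide_eq_true_eq] at this
        change (0 ∈ s.2 ∨ 1 ∈ s.2)
        tauto
      · have := h.2
        unfold qB at this
        simp only [decide_eq_true_eq] at this
        change (2 ∈ s.2 ∨ 3 ∈ s.2 ∨ 4 ∈ s.2 ∨ 5 ∈ s.2)
        tauto
    simp only [hfA, hfB, hfC, Pi.add_apply, Pi.one_apply, Pi.smul_apply, smul_eq_mul]
    cases h1 : qA s.2 <;> cases h2 : qB s.2
    · rcases h0 with h | h
      · rw [h1] at h; exact absurd h (by decide)
      · rw [h2] at h; exact absurd h (by decide)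
    all_goals norm_num
  · intro n hn
    have h1 := iter_init tabA harmA denA (by unfold denA; norm_num) fA (by
      intro o ho
      rw [finA o ho, hfA]
      simp only [qA_eq o ho]
      split_ifs
      · rw [div_self hA']
      · simp) n hn
    have h2 := iter_init tabB harmB denB (by unfold denB; norm_num) fB (by
      intro o ho
      rw [finB o ho, hfB]
      simp only [qB_eq o ho]
      split_ifs
      · rw [div_self hB']
      · simp) n hn
    have h3 := iter_init tabC harmC denC (by unfold denC; norm_num) fC (by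
      intro o ho
      rw [finC o ho, hfC]
      simp only [qA_eq o ho, qB_eq o ho]
      split_ifs
      · rw [div_self hC']
      · simp) n hn
    rw [iter_one_sub]
    simp only [Pi.add_apply, Pi.one_apply, Pi.smul_apply, smul_eq_mul, iter_add, iter_smul, h1, h2,
      h3]
    ring

lemma lookA : val tabA 0 0 = 54410029503 := by decide +kernel
lemma lookB : val tabB 0 0 = 4666223 := by decide +kernel
lemma lookC : val tabC 0 0 = 1 := by decide +kernel

/-- The final configuration of percolation with constant freezing on the complete graph with four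
vertices violates the FKG inequality at the rate `α = 1/40`. -/
theorem result : ∃ (α : ℝ) (A B : Set (Finset (Fin 6))) (a b c : ℝ), 0 < α ∧
    IsUpperSet A ∧ IsUpperSet B ∧ IsFinalProb ends4 α A a ∧ IsFinalProb ends4 α B b ∧
    IsFinalProb ends4 α (A ∩ B) c ∧ c < a * b := by
  refine ⟨1 / 40, evA, evB, _, _, _, by norm_num, ?_, ?_,
    final_compl evA qA pA qA_eq ?_ tabA harmA denA (by unfold denA; norm_num) finA,
    final_compl evB qB pB qB_eq ?_ tabB harmB denB (by unfold denB; norm_num) finB,
    final_inter, ?_⟩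
  · intro O O' h hO
    rcases hO with hO | hO
    · exact Or.inl (h hO)
    · exact Or.inr (h hO)
  · intro O O' h hO
    rcases hO with hO | hO | hO | hO
    · exact Or.inl (h hO)
    · exact Or.inr (Or.inl (h hO))
    · exact Or.inr (Or.inr (Or.inl (h hO)))
    · exact Or.inr (Or.inr (Or.inr (h hO)))
  · intro O
    simp only [evA, qA, Set.mem_ofPred_eq, decide_eq_false_iff_not]
    tauto
  · intro O
    simp only [evB, qB, Set.mem_ofPred_eq, decide_eq_false_iff_not]
    tauto
  · rw [lookA, lookB, lookC]
    unfold denA denB denC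
    norm_num

end Pool.Agent.Results.MP_b6680e_pr.FKGFails
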